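import Mathlib
import Pool.Agent.Lib.MP_ea3264_an.Api

/-!
# Uniqueness and interpolation for analytic extensions

`strip_unique`: a bounded function, continuous on the closed strip `0 ≤ Im z ≤ s` (`s > 0`),
analytic inside, which vanishes on `ℝ`, vanishes. Use the three lines theorem
(`Complex.HadamardThreeLines...` in `Mathlib/Analysis/Complex/Hadamard.lean`, after rotating the
strip `z ↦ -i s z`...), or the trick: for `ε > 0`... consider `F z * exp (i k z)` with `k > 0`
large: on `Im z = s` its norm is `≤ C exp (-k s)`, on `ℝ` it is `0`, so by Phragmen-Lindelöf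
(`PhragmenLindelof.horizontal_strip`) `‖F z‖ exp (-k Im z) ≤ C exp (-k s)`, i.e.
`‖F z‖ ≤ C exp (-k (s - Im z)) → 0` as `k → ∞` for `Im z < s`; by continuity `F = 0` also on
`Im z = s`.

`strip_max`: maximum principle on the strip (`PhragmenLindelof.horizontal_strip`; the growth
condition is trivial for a bounded function; note `closure (strip s) = cstrip s`).
-/

set_option autoImplicit false
set_option linter.unusedSectionVars false

open scoped TensorProduct InnerProductSpace ComplexConjugate Topology
open ContinuousLinearMap Filter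

noncomputable section

namespace LCQG

variable {E : Type*} [NormedAddCommGroup E] [NormedSpace ℂ E]

theorem strip_max {s : ℝ} (hs : 0 < s) {F : ℂ → E} (hc : ContinuousOn F (cstrip s))
    (hd : DifferentiableOn ℂ F (strip s)) (hb : ∃ C : ℝ, ∀ z ∈ cstrip s, ‖F z‖ ≤ C) {m : ℝ}
    (h0 : ∀ t : ℝ, ‖F t‖ ≤ m) (h1 : ∀ t : ℝ, ‖F (t + s * Complex.I)‖ ≤ m) :
    ∀ z ∈ cstrip s, ‖F z‖ ≤ m := by
  intro z hz
  have hst : (Complex.im ⁻¹' Set.Ioo 0 s) = strip s := rfl
  have hcl : closure (Complex.im ⁻¹' Set.Ioo 0 s) = cstrip s := by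
    rw [Complex.closure_preimage_im, closure_Ioo hs.ne]
    rfl
  refine PhragmenLindelof.horizontal_strip (a := 0) (b := s) ⟨hd, by rw [hcl]; exact hc⟩ ?_ ?_ ?_
    hz.1 hz.2
  · refine ⟨0, by simp only [sub_zero]; positivity, 0, ?_⟩
    obtain ⟨C, hC⟩ := hb
    refine Asymptotics.IsBigO.of_bound C ?_
    have : (Complex.im ⁻¹' Set.Ioo 0 s) ∈
        comap (_root_.abs ∘ Complex.re) atTop ⊓ 𝓟 (Complex.im ⁻¹' Set.Ioo 0 s) :=
      Filter.mem_inf_of_right (Filter.mem_principal_self _)
    filter_upwards [this] with w hw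
    have h3 := hC w ⟨hw.1.le, hw.2.le⟩
    simpa using h3
  · intro w hw
    have h3 : w = (w.re : ℂ) := by
      apply Complex.ext
      · simp
      · simp [hw]
    rw [h3]
    exact h0 _
  · intro w hw
    have h3 : w = (w.re : ℂ) + s * Complex.I := by
      apply Complex.ext
      · simp
      · simp [hw]
    rw [h3]
    exact h1 _

theorem strip_unique {s : ℝ} (hs : 0 < s) {F : ℂ → E} (hc : ContinuousOn F (cstrip s))
    (hd : DifferentiableOn ℂ F (strip s)) (hb : ∃ C : ℝ, ∀ z ∈ cstrip s, ‖F z‖ ≤ C)
    (h0 : ∀ t : ℝ, F t = 0) : ∀ z ∈ cstrip s, F z = 0 := by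
  obtain ⟨C, hC⟩ := hb
  have hC0 : 0 ≤ C := (norm_nonneg _).trans (hC 0 ⟨by simp, by simpa using hs.le⟩)
  have hnorm : ∀ (k : ℝ) (z : ℂ), ‖Complex.exp (Complex.I * k * z)‖ = Real.exp (-(k * z.im)) := by
    intro k z
    rw [Complex.norm_exp]
    congr 1
    simp [Complex.mul_re]
  -- the open strip
  have key : ∀ z ∈ cstrip s, z.im < s → F z = 0 := by
    intro z hz hzs
    have h2 : ∀ k : ℕ, ‖F z‖ ≤ C * Real.exp (-(k * (s - z.im))) := by
      intro k
      have h3 := strip_max hs (F := fun z => Complex.exp (Complex.I * (k : ℝ) * z) • F z)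
        (m := C * Real.exp (-(k * s))) ?_ ?_ ?_ ?_ ?_ z hz
      · rw [norm_smul, hnorm] at h3
        have h4 : Real.exp (-(k * z.im)) > 0 := Real.exp_pos _
        have h5 : Real.exp (-(k * z.im)) * (C * Real.exp (-(k * (s - z.im)))) =
            C * Real.exp (-(k * s)) := by
          rw [mul_left_comm, ← Real.exp_add]
          congr 2
          ring
        rw [← h5] at h3
        exact le_of_mul_le_mul_left h3 h4
      · exact (Continuous.continuousOn (by fun_prop)).smul hc
      · exact (Differentiable.differentiableOn (by fun_prop)).smul hd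
      · refine ⟨C, fun w hw => ?_⟩
        rw [norm_smul, hnorm]
        calc Real.exp (-(k * w.im)) * ‖F w‖ ≤ 1 * C := by
              apply mul_le_mul _ (hC w hw) (norm_nonneg _) zero_le_one
              rw [Real.exp_le_one_iff]
              have : (0 : ℝ) ≤ k * w.im := mul_nonneg (Nat.cast_nonneg _) hw.1
              linarith
          _ = C := one_mul _
      · intro t
        rw [h0, smul_zero, norm_zero]
        positivity
      · intro t
        rw [norm_smul, hnorm]
        have h6 : ((t : ℂ) + s * Complex.I).im = s := by simp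
        rw [h6, mul_comm]
        exact mul_le_mul_of_nonneg_right (hC _ ⟨by rw [h6]; exact hs.le, by rw [h6]⟩)
          (Real.exp_pos _).le
    have h7 : Tendsto (fun k : ℕ => C * Real.exp (-(k * (s - z.im)))) atTop (𝓝 (C * 0)) := by
      apply Tendsto.const_mul
      apply Real.tendsto_exp_neg_atTop_nhds_zero.comp
      exact tendsto_natCast_atTop_atTop.atTop_mul_const (by linarith)
    rw [mul_zero] at h7
    have h8 : ‖F z‖ ≤ 0 := ge_of_tendsto' h7 h2
    exact norm_le_zero_iff.1 h8
  intro z hz
  rcases lt_or_eq_of_le hz.2 with hlt | heq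
  · exact key z hz hlt
  · have hzcl : z ∈ closure (strip s) := by
      have hcl : closure (Complex.im ⁻¹' Set.Ioo 0 s) = cstrip s := by
        rw [Complex.closure_preimage_im, closure_Ioo hs.ne]
        rfl
      have hst : (Complex.im ⁻¹' Set.Ioo 0 s) = strip s := rfl
      rw [← hst, hcl]
      exact hz
    have hne : (𝓝[strip s] z).NeBot := mem_closure_iff_nhdsWithin_neBot.1 hzcl
    have hsub : strip s ⊆ cstrip s := fun w hw => ⟨hw.1.le, hw.2.le⟩
    have ht : Tendsto F (𝓝[strip s] z) (𝓝 (F z)) := (hc z hz).mono_left (nhdsWithin_mono z hsub)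
    have ht' : Tendsto F (𝓝[strip s] z) (𝓝 0) := by
      refine tendsto_const_nhds.congr' ?_
      filter_upwards [self_mem_nhdsWithin] with w hw
      exact (key w (hsub hw) hw.2).symm
    exact tendsto_nhds_unique ht ht'

end LCQG
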