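import Mathlib
import Pool.Agent.Lib.MP_ea3264_an.V.ExtUnique

/-!
# Algebraic properties of `IsExt`

* `IsExt.unique`: `strip_unique` for the difference.
* `IsExt.add`, `IsExt.smul`, `IsExt.mul`: take `F + F'`, `c • F`, `F * F'`.
* `IsExt.interp`: let `F` be the function in `IsExt U s a b`. For real `t`,
  `F (z + t) = tau U t (F z)` on the closed strip (`strip_unique`; both sides are bounded,
  continuous, analytic in `z`, and agree for real `z` by `tau_tau`), so
  `‖F (t + i s)‖ = ‖b‖`, `‖F t‖ = ‖a‖` (`norm_tau`), and `strip_max` gives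
  `‖F z‖ ≤ max ‖a‖ ‖b‖`. Take `c = F (i r)`; restrict `F` to the strip of width `r`.
* `IsExt.lim`: let `F n` be the functions of `h n`. By the previous estimate applied to
  `F n - F m` (an extension for `a n - a m`), `‖F n z - F m z‖ ≤ max ‖a n - a m‖ ‖b n - b m‖` on
  the closed strip, so `F n` converges uniformly on the closed strip to a bounded function `F`,
  continuous on the closed strip and differentiable inside
  (`TendstoLocallyUniformlyOn.differentiableOn`), `F t = lim tau U t (a n) = tau U t a`.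
-/

set_option autoImplicit false
set_option linter.unusedSectionVars false

open scoped TensorProduct InnerProductSpace ComplexConjugate Topology
open ContinuousLinearMap Filter

noncomputable section

namespace LCQG

variable {H : Type*} [NormedAddCommGroup H] [InnerProductSpace ℂ H] [CompleteSpace H]
variable {U : ℝ → H ≃ₗᵢ[ℂ] H}

/-- the data of `IsExt` as a property of the function `F`. -/
private structure ExtF (U : ℝ → H ≃ₗᵢ[ℂ] H) (s : ℝ) (a b : H →L[ℂ] H)
    (F : ℂ → (H →L[ℂ] H)) : Prop where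
  cont : ContinuousOn F (cstrip s)
  diff : DifferentiableOn ℂ F (strip s)
  bdd : ∃ C : ℝ, ∀ z ∈ cstrip s, ‖F z‖ ≤ C
  real : ∀ t : ℝ, F t = tau U t a
  val : F (s * Complex.I) = b

private theorem ExtF.isExt {s : ℝ} {a b : H →L[ℂ] H} {F : ℂ → (H →L[ℂ] H)}
    (h : ExtF U s a b F) : IsExt U s a b :=
  ⟨F, h.cont, h.diff, h.bdd, h.real, h.val⟩

private theorem IsExt.extF {s : ℝ} {a b : H →L[ℂ] H} (h : IsExt U s a b) :
    ∃ F, ExtF U s a b F := by
  obtain ⟨F, h1, h2, h3, h4, h5⟩ := h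
  exact ⟨F, h1, h2, h3, h4, h5⟩

private theorem mem_top {s : ℝ} (hs : 0 ≤ s) : (s : ℂ) * Complex.I ∈ cstrip s := by
  constructor <;> simp [hs]

private theorem ExtF.add {s : ℝ} {a b a' b' : H →L[ℂ] H} {F F' : ℂ → (H →L[ℂ] H)}
    (h : ExtF U s a b F) (h' : ExtF U s a' b' F') :
    ExtF U s (a + a') (b + b') (fun z => F z + F' z) := by
  refine ⟨h.cont.add h'.cont, h.diff.add h'.diff, ?_, ?_, ?_⟩
  · obtain ⟨C, hC⟩ := h.bdd
    obtain ⟨C', hC'⟩ := h'.bdd
    exact ⟨C + C', fun z hz => (norm_add_le _ _).trans (add_le_add (hC z hz) (hC' z hz))⟩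
  · intro t
    rw [tau_add', h.real, h'.real]
  · rw [h.val, h'.val]

private theorem ExtF.smul {s : ℝ} (c : ℂ) {a b : H →L[ℂ] H} {F : ℂ → (H →L[ℂ] H)}
    (h : ExtF U s a b F) : ExtF U s (c • a) (c • b) (fun z => c • F z) := by
  refine ⟨h.cont.const_smul c, h.diff.const_smul c, ?_, ?_, ?_⟩
  · obtain ⟨C, hC⟩ := h.bdd
    refine ⟨‖c‖ * C, fun z hz => ?_⟩
    rw [norm_smul]
    exact mul_le_mul_of_nonneg_left (hC z hz) (norm_nonneg _)
  · intro t
    rw [tau_smul, h.real]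
  · rw [h.val]

private theorem ExtF.sub {s : ℝ} {a b a' b' : H →L[ℂ] H} {F F' : ℂ → (H →L[ℂ] H)}
    (h : ExtF U s a b F) (h' : ExtF U s a' b' F') :
    ExtF U s (a - a') (b - b') (fun z => F z - F' z) := by
  have h1 := h.add (h'.smul (-1))
  have e : ∀ x y : H →L[ℂ] H, x + (-1 : ℂ) • y = x - y := by
    intro x y
    rw [neg_one_smul, sub_eq_add_neg]
  rw [e, e] at h1
  have e2 : (fun z => F z + (-1 : ℂ) • F' z) = fun z => F z - F' z := funext fun z => e _ _
  rw [e2] at h1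
  exact h1

/-- `tau U t` as a bounded linear map. -/
private def tauL (U : ℝ → H ≃ₗᵢ[ℂ] H) (t : ℝ) : (H →L[ℂ] H) →L[ℂ] (H →L[ℂ] H) :=
  (ContinuousLinearMap.compL ℂ H H H ((U t).toContinuousLinearEquiv : H →L[ℂ] H)) ∘L
    ((ContinuousLinearMap.compL ℂ H H H).flip ((U (-t)).toContinuousLinearEquiv : H →L[ℂ] H))

private theorem tauL_apply (t : ℝ) (a : H →L[ℂ] H) : tauL U t a = tau U t a := rfl

private theorem ExtF.shift (hU : ∀ s t x, U (s + t) x = U s (U t x)) {s : ℝ} (hs : 0 < s)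
    {a b : H →L[ℂ] H} {F : ℂ → (H →L[ℂ] H)} (h : ExtF U s a b F) (t : ℝ) :
    ∀ z ∈ cstrip s, F (z + t) = tau U t (F z) := by
  have him : ∀ z : ℂ, (z + t).im = z.im := fun z => by simp
  have hm1 : Set.MapsTo (fun z : ℂ => z + t) (cstrip s) (cstrip s) := by
    intro z hz
    constructor
    · rw [him]; exact hz.1
    · rw [him]; exact hz.2
  have hm2 : Set.MapsTo (fun z : ℂ => z + t) (strip s) (strip s) := by
    intro z hz
    constructor
    · rw [him]; exact hz.1
    · rw [him]; exact hz.2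
  have key := strip_unique hs (F := fun z => F (z + t) - tauL U t (F z)) ?_ ?_ ?_ ?_
  · intro z hz
    exact sub_eq_zero.1 (key z hz)
  · refine ContinuousOn.sub ?_ ?_
    · exact h.cont.comp (by fun_prop) hm1
    · exact (tauL U t).continuous.comp_continuousOn h.cont
  · refine DifferentiableOn.sub ?_ ?_
    · exact h.diff.comp (Differentiable.differentiableOn (by fun_prop)) hm2
    · exact (tauL U t).differentiable.comp_differentiableOn h.diff
  · obtain ⟨C, hC⟩ := h.bdd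
    refine ⟨C + C, fun z hz => (norm_sub_le _ _).trans (add_le_add (hC _ (hm1 hz)) ?_)⟩
    rw [tauL_apply]
    exact (norm_tau_le _ _).trans (hC z hz)
  · intro r
    rw [tauL_apply, h.real, tau_tau hU, ← Complex.ofReal_add, h.real, add_comm, sub_self]

private theorem ExtF.norm_le (hU : ∀ s t x, U (s + t) x = U s (U t x)) {s : ℝ} (hs : 0 < s)
    {a b : H →L[ℂ] H} {F : ℂ → (H →L[ℂ] H)} (h : ExtF U s a b F) :
    ∀ z ∈ cstrip s, ‖F z‖ ≤ max ‖a‖ ‖b‖ := by
  refine strip_max hs h.cont h.diff h.bdd ?_ ?_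
  · intro t
    rw [h.real, norm_tau hU]
    exact le_max_left _ _
  · intro t
    rw [add_comm, h.shift hU hs t _ (mem_top hs.le), norm_tau hU, h.val]
    exact le_max_right _ _

theorem IsExt.unique {s : ℝ} (hs : 0 < s) {a b b' : H →L[ℂ] H} (h : IsExt U s a b)
    (h' : IsExt U s a b') : b = b' := by
  obtain ⟨F, hF⟩ := h.extF
  obtain ⟨F', hF'⟩ := h'.extF
  have h1 := hF.sub hF'
  have h2 := strip_unique hs h1.cont h1.diff h1.bdd (fun t => by
    rw [hF.real, hF'.real, sub_self]) _ (mem_top hs.le)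
  rw [hF.val, hF'.val] at h2
  exact sub_eq_zero.1 h2

theorem IsExt.add {s : ℝ} {a b a' b' : H →L[ℂ] H} (h : IsExt U s a b)
    (h' : IsExt U s a' b') : IsExt U s (a + a') (b + b') := by
  obtain ⟨F, hF⟩ := h.extF
  obtain ⟨F', hF'⟩ := h'.extF
  exact (hF.add hF').isExt

theorem IsExt.smul {s : ℝ} (c : ℂ) {a b : H →L[ℂ] H} (h : IsExt U s a b) :
    IsExt U s (c • a) (c • b) := by
  obtain ⟨F, hF⟩ := h.extF
  exact (hF.smul c).isExt

theorem IsExt.mul (hU : ∀ s t x, U (s + t) x = U s (U t x)) {s : ℝ} {a b a' b' : H →L[ℂ] H}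
    (h : IsExt U s a b) (h' : IsExt U s a' b') : IsExt U s (a * a') (b * b') := by
  obtain ⟨F, hF⟩ := h.extF
  obtain ⟨F', hF'⟩ := h'.extF
  refine ⟨fun z => F z * F' z, hF.cont.mul hF'.cont, hF.diff.mul hF'.diff, ?_, ?_, ?_⟩
  · obtain ⟨C, hC⟩ := hF.bdd
    obtain ⟨C', hC'⟩ := hF'.bdd
    refine ⟨C * C', fun z hz => (norm_mul_le _ _).trans ?_⟩
    exact mul_le_mul (hC z hz) (hC' z hz) (norm_nonneg _) ((norm_nonneg _).trans (hC z hz))
  · intro t
    show F t * F' t = tau U t (a * a')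
    rw [tau_mul hU, hF.real, hF'.real]
  · show F (s * Complex.I) * F' (s * Complex.I) = b * b'
    rw [hF.val, hF'.val]

theorem IsExt.zero {s : ℝ} : IsExt U s (0 : H →L[ℂ] H) 0 := by
  refine ⟨fun _ => 0, continuousOn_const, differentiableOn_const _, ⟨0, fun z _ => by simp⟩,
    fun t => ?_, rfl⟩
  ext x
  simp [tau_apply]

theorem IsExt.sum {s : ℝ} {ι : Type*} (T : Finset ι) (a b : ι → H →L[ℂ] H)
    (h : ∀ i ∈ T, IsExt U s (a i) (b i)) : IsExt U s (∑ i ∈ T, a i) (∑ i ∈ T, b i) := by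
  classical
  induction T using Finset.induction_on with
  | empty =>
    rw [Finset.sum_empty, Finset.sum_empty]
    exact IsExt.zero
  | insert i T hi ih =>
    rw [Finset.sum_insert hi, Finset.sum_insert hi]
    exact (h i (Finset.mem_insert_self i T)).add
      (ih fun j hj => h j (Finset.mem_insert_of_mem hj))

theorem IsExt.interp (hU : ∀ s t x, U (s + t) x = U s (U t x)) {s r : ℝ} (hr : 0 < r)
    (hrs : r ≤ s) {a b : H →L[ℂ] H} (h : IsExt U s a b) :
    ∃ c, IsExt U r a c ∧ ‖c‖ ≤ max ‖a‖ ‖b‖ := by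
  obtain ⟨F, hF⟩ := h.extF
  have hs : 0 < s := lt_of_lt_of_le hr hrs
  have hsub : cstrip r ⊆ cstrip s := fun z hz => ⟨hz.1, hz.2.trans hrs⟩
  have hsub' : strip r ⊆ strip s := fun z hz => ⟨hz.1, lt_of_lt_of_le hz.2 hrs⟩
  refine ⟨F (r * Complex.I), ⟨F, hF.cont.mono hsub, hF.diff.mono hsub', ?_, hF.real, rfl⟩, ?_⟩
  · obtain ⟨C, hC⟩ := hF.bdd
    exact ⟨C, fun z hz => hC z (hsub hz)⟩
  · exact hF.norm_le hU hs _ (hsub (mem_top hr.le))

theorem IsExt.lim (hU : ∀ s t x, U (s + t) x = U s (U t x)) {s : ℝ} (hs : 0 < s)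
    {a b : ℕ → H →L[ℂ] H} {a₀ b₀ : H →L[ℂ] H} (h : ∀ n, IsExt U s (a n) (b n))
    (ha : Tendsto a atTop (𝓝 a₀)) (hb : Tendsto b atTop (𝓝 b₀)) : IsExt U s a₀ b₀ := by
  choose F hF using fun n => (h n).extF
  have hdist : ∀ n m, ∀ z ∈ cstrip s, dist (F n z) (F m z) ≤
      max (dist (a n) (a m)) (dist (b n) (b m)) := by
    intro n m z hz
    rw [dist_eq_norm, dist_eq_norm, dist_eq_norm]
    exact ((hF n).sub (hF m)).norm_le hU hs z hz
  have hcau : UniformCauchySeqOn F atTop (cstrip s) := by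
    rw [Metric.uniformCauchySeqOn_iff]
    intro ε hε
    obtain ⟨N1, hN1⟩ := Metric.cauchySeq_iff.1 ha.cauchySeq ε hε
    obtain ⟨N2, hN2⟩ := Metric.cauchySeq_iff.1 hb.cauchySeq ε hε
    refine ⟨max N1 N2, fun m hm n hn z hz => ?_⟩
    refine lt_of_le_of_lt (hdist m n z hz) (max_lt ?_ ?_)
    · exact hN1 m (le_trans (le_max_left _ _) hm) n (le_trans (le_max_left _ _) hn)
    · exact hN2 m (le_trans (le_max_right _ _) hm) n (le_trans (le_max_right _ _) hn)
  have hlim : ∀ z, ∃ y, z ∈ cstrip s → Tendsto (fun n => F n z) atTop (𝓝 y) := by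
    intro z
    by_cases hz : z ∈ cstrip s
    · obtain ⟨y, hy⟩ := cauchySeq_tendsto_of_complete (hcau.cauchySeq hz)
      exact ⟨y, fun _ => hy⟩
    · exact ⟨0, fun h => absurd h hz⟩
  choose G hG using hlim
  have hunif : TendstoUniformlyOn F G atTop (cstrip s) :=
    hcau.tendstoUniformlyOn_of_tendsto hG
  have hsub : strip s ⊆ cstrip s := fun z hz => ⟨hz.1.le, hz.2.le⟩
  have hopen : IsOpen (strip s) := by
    have h1 : IsOpen (Complex.im ⁻¹' Set.Ioo 0 s) := isOpen_Ioo.preimage Complex.continuous_im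
    exact h1
  refine ⟨G, ?_, ?_, ?_, ?_, ?_⟩
  · exact hunif.continuousOn (Filter.Frequently.of_forall fun n => (hF n).cont)
  · exact (hunif.mono hsub).tendstoLocallyUniformlyOn.differentiableOn
      (Filter.Eventually.of_forall fun n => (hF n).diff) hopen
  · refine ⟨max ‖a₀‖ ‖b₀‖, fun z hz => ?_⟩
    have h1 : Tendsto (fun n => ‖F n z‖) atTop (𝓝 ‖G z‖) := (hG z hz).norm
    have h2 : Tendsto (fun n => max ‖a n‖ ‖b n‖) atTop (𝓝 (max ‖a₀‖ ‖b₀‖)) := ha.norm.max hb.norm
    exact le_of_tendsto_of_tendsto' h1 h2 fun n => (hF n).norm_le hU hs z hz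
  · intro t
    have ht : (t : ℂ) ∈ cstrip s := by
      constructor
      · simp
      · simpa using hs.le
    have h1 := hG t ht
    have h2 : Tendsto (fun n => tauL U t (a n)) atTop (𝓝 (tauL U t a₀)) :=
      ((tauL U t).continuous.tendsto _).comp ha
    refine tendsto_nhds_unique h1 (h2.congr fun n => ?_)
    rw [tauL_apply, (hF n).real]
  · refine tendsto_nhds_unique (hG _ (mem_top hs.le)) (hb.congr fun n => ?_)
    rw [(hF n).val]

/-- `tilde` computes the extension. -/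
theorem tilde_eq {a b : H →L[ℂ] H} (h : IsExt U (1 / 4) a b) : tilde U a = b := by
  have h' : ∃ b, IsExt U (1 / 4) a b := ⟨b, h⟩
  rw [tilde, dif_pos h']
  exact IsExt.unique (by norm_num) h'.choose_spec h

end LCQG
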