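import Mathlib
import Pool.Agent.Lib.MP_ea3264_an.Api

/-!
# Analytic vectors of a one-parameter unitary group

`Nice U ξ e`: the orbit `t ↦ U t ξ` extends to the entire function `e`, bounded on horizontal
strips.

`nice_dense`: for `n > 0` let `e_n z = √(n/π) ∫ exp (-n (t - z)²) • U t ξ dt`. The integral
converges absolutely (`|exp (-n (t - z)²)| = exp (-n ((t - x)² - y²))`, `z = x + i y`), `e_n` is
entire (differentiate under the integral sign, `hasDerivAt_integral_of_dominated_loc_of_deriv_le`;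
or show that it is continuous and use Morera / a power series), `‖e_n z‖ ≤ exp (n y²) ‖ξ‖`, and
`U s (e_n 0) = √(n/π) ∫ exp (-n t²) • U (s + t) ξ dt = e_n s` for real `s`. So
`Nice U (e_n 0) e_n`, and `e_n 0 → ξ` as `n → ∞` (approximate identity: split at `|t| ≤ r`, or
substitute `t = u / √n` and use dominated convergence).

`Nice.shift`: for real `t`, `U t (e w) = e (t + w)` for all complex `w`: both sides are entire in
`w` and agree for real `w` (identity theorem `AnalyticOnNhd.eq_of_frequently_eq` or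
`DifferentiableOn.analyticOnNhd`, e.g. via matrix coefficients).

`Nice.inner_const`: `z ↦ ⟪e' (conj z), e z⟫` is entire (the conjugate of `z ↦ e' (conj z)`
composed with the antilinear first variable is holomorphic) and is equal to `⟪U t η, U t ξ⟫ =
⟪η, ξ⟫` for real `z = t`; identity theorem. Alternatively: it is an entire function whose
derivative vanishes on `ℝ`.

`Nice.coef`: `z ↦ ⟪tm (e' (conj z)) u, W (tm (e z) y)⟫` and similar functions are needed later;
the general statement `Nice.diff_sesq` below covers them: for a bounded sesquilinear `B` into a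
complex Banach space the function `z ↦ B (e' (conj z)) (e z)` is entire.
-/

set_option autoImplicit false
set_option linter.unusedSectionVars false

open scoped TensorProduct InnerProductSpace ComplexConjugate Topology
open ContinuousLinearMap Filter

noncomputable section

namespace LCQG

variable {H : Type*} [NormedAddCommGroup H] [InnerProductSpace ℂ H] [CompleteSpace H]

/-- The orbit of `ξ` extends to the entire function `e`, bounded on horizontal strips. -/
structure Nice (U : ℝ → H ≃ₗᵢ[ℂ] H) (ξ : H) (e : ℂ → H) : Prop where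
  diff : Differentiable ℂ e
  real : ∀ t : ℝ, e t = U t ξ
  bdd : ∀ r : ℝ, ∃ C : ℝ, ∀ z : ℂ, |z.im| ≤ r → ‖e z‖ ≤ C

/-- the Gaussian kernel -/
private def gk (a : ℝ) (z : ℂ) (t : ℝ) : ℂ := Complex.exp (-(a : ℂ) * ((t : ℂ) - z) ^ 2)

private theorem gk_norm (a : ℝ) (z : ℂ) (t : ℝ) :
    ‖gk a z t‖ = Real.exp (a * z.im ^ 2) * Real.exp (-a * (t - z.re) ^ 2) := by
  unfold gk
  rw [Complex.norm_exp, ← Real.exp_add]
  congr 1
  have h1 : (-(a : ℂ) * ((t : ℂ) - z) ^ 2).re = -a * ((t - z.re) ^ 2 - z.im ^ 2) := by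
    rw [← Complex.ofReal_neg, Complex.re_ofReal_mul, sq, Complex.mul_re, Complex.sub_re,
      Complex.sub_im, Complex.ofReal_re, Complex.ofReal_im]
    ring
  rw [h1]
  ring

private theorem gk_cont (a : ℝ) (z : ℂ) : Continuous (gk a z) := by
  unfold gk
  fun_prop

private theorem gk_shift (a : ℝ) (s t : ℝ) : gk a s (t + s) = gk a 0 t := by
  unfold gk
  congr 1
  push_cast
  ring

private theorem gauss_int {b : ℝ} (hb : 0 < b) (x : ℝ) :
    MeasureTheory.Integrable fun t : ℝ => Real.exp (-b * (t - x) ^ 2) :=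
  (integrable_exp_neg_mul_sq hb).comp_sub_right x

private theorem gk_integrable {U : ℝ → H ≃ₗᵢ[ℂ] H} (hc : ∀ x, Continuous fun t => U t x)
    {a : ℝ} (ha : 0 < a) (ξ : H) (z : ℂ) : MeasureTheory.Integrable fun t : ℝ =>
      gk a z t • U t ξ := by
  refine MeasureTheory.Integrable.mono' (g := fun t => (Real.exp (a * z.im ^ 2) * ‖ξ‖) *
    Real.exp (-a * (t - z.re) ^ 2)) ((gauss_int ha z.re).const_mul _)
    ((gk_cont a z).smul (hc ξ)).aestronglyMeasurable (Filter.Eventually.of_forall fun t => ?_)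
  rw [norm_smul, gk_norm, LinearIsometryEquiv.norm_map]
  refine le_of_eq ?_
  ring

private theorem gk_deriv (a : ℝ) (z : ℂ) (t : ℝ) :
    HasDerivAt (fun w => gk a w t) (2 * (a : ℂ) * ((t : ℂ) - z) * gk a z t) z := by
  unfold gk
  have h1 : HasDerivAt (fun w : ℂ => (t : ℂ) - w) (-1) z := by
    simpa using (hasDerivAt_id z).const_sub (t : ℂ)
  have h2 : HasDerivAt (fun w : ℂ => -(a : ℂ) * ((t : ℂ) - w) ^ 2)
      (-(a : ℂ) * (2 * ((t : ℂ) - z) ^ 1 * (-1))) z := by
    have := (h1.pow 2).const_mul (-(a : ℂ))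
    simpa using this
  have h3 := h2.cexp
  have h4 : 2 * (a : ℂ) * ((t : ℂ) - z) * Complex.exp (-(a : ℂ) * ((t : ℂ) - z) ^ 2) =
      Complex.exp (-(a : ℂ) * ((t : ℂ) - z) ^ 2) *
        (-(a : ℂ) * (2 * ((t : ℂ) - z) ^ 1 * (-1))) := by
    ring
  rw [h4]
  exact h3

private theorem gauss_bound {a : ℝ} (ha : 0 < a) {z₀ z : ℂ} (hz : z ∈ Metric.ball z₀ 1) (t : ℝ) :
    ‖2 * (a : ℂ) * ((t : ℂ) - z) * gk a z t‖ ≤
      2 * a * (|t - z₀.re| + (|z₀.im| + 2)) * (Real.exp (a * (|z₀.im| + 1) ^ 2 + a) *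
        Real.exp (-(a / 2) * (t - z₀.re) ^ 2)) := by
  have hd : ‖z - z₀‖ < 1 := by
    rw [Metric.mem_ball, dist_eq_norm] at hz
    exact hz
  have hre : |z.re - z₀.re| ≤ 1 := by
    rw [← Complex.sub_re]
    exact le_trans (Complex.abs_re_le_norm _) hd.le
  have him : |z.im - z₀.im| ≤ 1 := by
    rw [← Complex.sub_im]
    exact le_trans (Complex.abs_im_le_norm _) hd.le
  have h1 : ‖2 * (a : ℂ) * ((t : ℂ) - z)‖ ≤ 2 * a * (|t - z₀.re| + (|z₀.im| + 2)) := by
    rw [norm_mul, norm_mul, Complex.norm_ofNat, Complex.norm_real, Real.norm_of_nonneg ha.le]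
    refine mul_le_mul_of_nonneg_left ?_ (by positivity)
    have h2 : ‖(t : ℂ) - z‖ ≤ ‖(t : ℂ) - z₀‖ + ‖z₀ - z‖ := by
      have := norm_add_le ((t : ℂ) - z₀) (z₀ - z)
      simpa using this
    have h3 : ‖(t : ℂ) - z₀‖ ≤ |t - z₀.re| + |z₀.im| := by
      have := Complex.norm_le_abs_re_add_abs_im ((t : ℂ) - z₀)
      simpa using this
    have h4 : ‖z₀ - z‖ < 1 := by
      rw [norm_sub_rev]
      exact hd
    linarith
  have h2 : ‖gk a z t‖ ≤ Real.exp (a * (|z₀.im| + 1) ^ 2 + a) *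
      Real.exp (-(a / 2) * (t - z₀.re) ^ 2) := by
    rw [gk_norm, ← Real.exp_add, ← Real.exp_add]
    refine Real.exp_le_exp.2 ?_
    have h3 : z.im ^ 2 ≤ (|z₀.im| + 1) ^ 2 := by
      rw [← sq_abs z.im]
      refine pow_le_pow_left₀ (abs_nonneg _) ?_ 2
      have := abs_sub_abs_le_abs_sub z.im z₀.im
      linarith
    have h4 : (t - z₀.re) ^ 2 / 2 - 1 ≤ (t - z.re) ^ 2 := by
      obtain ⟨h5, h6⟩ := abs_le.1 hre
      nlinarith [sq_nonneg ((t - z₀.re) - 2 * (z.re - z₀.re))]
    nlinarith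
  rw [norm_mul]
  exact mul_le_mul h1 h2 (norm_nonneg _) (by positivity)

private theorem gauss_bound_int {a : ℝ} (ha : 0 < a) (z₀ : ℂ) (C : ℝ) :
    MeasureTheory.Integrable fun t : ℝ =>
      2 * a * (|t - z₀.re| + (|z₀.im| + 2)) * (Real.exp (a * (|z₀.im| + 1) ^ 2 + a) *
        Real.exp (-(a / 2) * (t - z₀.re) ^ 2)) * C := by
  have ha2 : 0 < a / 2 := by positivity
  have h1 : MeasureTheory.Integrable fun t : ℝ =>
      |t - z₀.re| * Real.exp (-(a / 2) * (t - z₀.re) ^ 2) := by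
    have h2 := (integrable_mul_exp_neg_mul_sq ha2).norm.comp_sub_right z₀.re
    refine h2.congr (Filter.Eventually.of_forall fun t => ?_)
    simp only [norm_mul, Real.norm_eq_abs, Real.abs_exp]
  have h2 := gauss_int ha2 z₀.re
  have h3 := (h1.add (h2.const_mul (|z₀.im| + 2))).const_mul
    (2 * a * Real.exp (a * (|z₀.im| + 1) ^ 2 + a) * C)
  refine h3.congr (Filter.Eventually.of_forall fun t => ?_)
  simp only [Pi.add_apply]
  ring

private theorem gk_entire {U : ℝ → H ≃ₗᵢ[ℂ] H} (hc : ∀ x, Continuous fun t => U t x)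
    {a : ℝ} (ha : 0 < a) (ξ : H) : Differentiable ℂ fun z : ℂ => ∫ t : ℝ, gk a z t • U t ξ := by
  intro z₀
  have h := hasDerivAt_integral_of_dominated_loc_of_deriv_le (μ := MeasureTheory.volume)
    (F := fun (z : ℂ) (t : ℝ) => gk a z t • U t ξ)
    (F' := fun (z : ℂ) (t : ℝ) => (2 * (a : ℂ) * ((t : ℂ) - z) * gk a z t) • U t ξ)
    (bound := fun t => 2 * a * (|t - z₀.re| + (|z₀.im| + 2)) *
      (Real.exp (a * (|z₀.im| + 1) ^ 2 + a) * Real.exp (-(a / 2) * (t - z₀.re) ^ 2)) * ‖ξ‖)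
    (Metric.ball_mem_nhds z₀ one_pos)
    (Filter.Eventually.of_forall fun z =>
      ((gk_cont a z).smul (hc ξ)).aestronglyMeasurable)
    (gk_integrable hc ha ξ z₀)
    (by
      refine Continuous.aestronglyMeasurable ?_
      refine Continuous.smul (Continuous.mul ?_ (gk_cont a z₀)) (hc ξ)
      fun_prop)
    (Filter.Eventually.of_forall fun t z hz => by
      rw [norm_smul, LinearIsometryEquiv.norm_map]
      exact mul_le_mul_of_nonneg_right (gauss_bound ha hz t) (norm_nonneg _))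
    (gauss_bound_int ha z₀ ‖ξ‖)
    (Filter.Eventually.of_forall fun t z _ => (gk_deriv a z t).smul_const (U t ξ))
  exact h.2.differentiableAt

theorem nice_dense {U : ℝ → H ≃ₗᵢ[ℂ] H} (hU : ∀ s t x, U (s + t) x = U s (U t x))
    (hc : ∀ x, Continuous fun t => U t x) (ξ : H) {δ : ℝ} (hδ : 0 < δ) :
    ∃ (ξ' : H) (e : ℂ → H), Nice U ξ' e ∧ ‖ξ' - ξ‖ ≤ δ := by
  have hU0 : ∀ x, U 0 x = x := by
    intro x
    have h1 := hU 0 0 x
    rw [add_zero] at h1
    exact ((U 0).injective h1).symm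
  -- the modulus of continuity at 0
  obtain ⟨r, hr0, hr⟩ : ∃ r : ℝ, 0 < r ∧ ∀ t : ℝ, |t| < r → ‖U t ξ - ξ‖ < δ / 2 := by
    have h1 := Metric.continuous_iff.1 (hc ξ) 0 (δ / 2) (by positivity)
    obtain ⟨r, hr0, hr⟩ := h1
    refine ⟨r, hr0, fun t ht => ?_⟩
    have := hr t (by rwa [Real.dist_eq, sub_zero])
    rwa [hU0, dist_eq_norm] at this
  -- choice of a
  obtain ⟨a, ha, hsmall⟩ : ∃ a : ℝ, 0 < a ∧
      2 * ‖ξ‖ * Real.exp (-(a / 2) * r ^ 2) * √2 ≤ δ / 2 := by
    have h1 : Tendsto (fun a : ℝ => 2 * ‖ξ‖ * Real.exp (-(a / 2) * r ^ 2) * √2) atTop (𝓝 0) := by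
      have h2 : Tendsto (fun a : ℝ => -(a / 2) * r ^ 2) atTop atBot := by
        have h3 : (fun a : ℝ => -(a / 2) * r ^ 2) = fun a : ℝ => (-(r ^ 2 / 2)) * a := by
          funext a
          ring
        rw [h3]
        exact Tendsto.const_mul_atTop_of_neg (by have := sq_pos_of_pos hr0; linarith) tendsto_id
      have h4 := ((Real.tendsto_exp_atBot.comp h2).const_mul (2 * ‖ξ‖)).mul_const √2
      simpa using h4
    have h5 := (h1.eventually (ge_mem_nhds (by positivity : (0 : ℝ) < δ / 2))).and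
      (eventually_gt_atTop (0 : ℝ))
    obtain ⟨a, h6, h7⟩ := h5.exists
    exact ⟨a, h7, h6⟩
  set c : ℝ := √(a / Real.pi) with hcdef
  have hc0 : 0 ≤ c := Real.sqrt_nonneg _
  have hcint : c * ∫ t : ℝ, Real.exp (-a * t ^ 2) = 1 := by
    rw [integral_gaussian, hcdef, ← Real.sqrt_mul (by positivity)]
    have : a / Real.pi * (Real.pi / a) = 1 := by
      field_simp
    rw [this, Real.sqrt_one]
  have hcint2 : c * ∫ t : ℝ, Real.exp (-(a / 2) * t ^ 2) = √2 := by
    rw [integral_gaussian, hcdef, ← Real.sqrt_mul (by positivity)]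
    congr 1
    field_simp
  refine ⟨(c : ℂ) • ∫ t : ℝ, gk a 0 t • U t ξ, fun z => (c : ℂ) • ∫ t : ℝ, gk a z t • U t ξ,
    ⟨?_, ?_, ?_⟩, ?_⟩
  · exact (gk_entire hc ha ξ).const_smul (c : ℂ)
  · intro s
    rw [map_smul]
    congr 1
    have h1 := MeasureTheory.integral_add_right_eq_self (μ := MeasureTheory.volume)
      (fun t : ℝ => gk a s t • U t ξ) s
    rw [← h1]
    have h2 : ∀ t : ℝ, gk a s (t + s) • U (t + s) ξ =
        ((U s).toContinuousLinearEquiv : H →L[ℂ] H) (gk a 0 t • U t ξ) := by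
      intro t
      rw [gk_shift, add_comm t s, hU, map_smul]
      rfl
    simp only [h2]
    exact ContinuousLinearMap.integral_comp_comm _ (gk_integrable hc ha ξ 0)
  · intro r
    refine ⟨c * (Real.exp (a * r ^ 2) * ‖ξ‖ * ∫ t : ℝ, Real.exp (-a * t ^ 2)), fun z hz => ?_⟩
    rw [norm_smul, Complex.norm_real, Real.norm_of_nonneg hc0]
    refine mul_le_mul_of_nonneg_left ?_ hc0
    have h1 : ‖∫ t : ℝ, gk a z t • U t ξ‖ ≤
        ∫ t : ℝ, (Real.exp (a * r ^ 2) * ‖ξ‖) * Real.exp (-a * (t - z.re) ^ 2) := by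
      refine MeasureTheory.norm_integral_le_of_norm_le ((gauss_int ha z.re).const_mul _)
        (Filter.Eventually.of_forall fun t => ?_)
      rw [norm_smul, gk_norm, LinearIsometryEquiv.norm_map]
      have h2 : z.im ^ 2 ≤ r ^ 2 := by
        rw [← sq_abs z.im]
        exact pow_le_pow_left₀ (abs_nonneg _) hz 2
      have h3 : Real.exp (a * z.im ^ 2) ≤ Real.exp (a * r ^ 2) :=
        Real.exp_le_exp.2 (mul_le_mul_of_nonneg_left h2 ha.le)
      have h4 := mul_le_mul_of_nonneg_right h3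
        (mul_nonneg (norm_nonneg ξ) (Real.exp_pos (-a * (t - z.re) ^ 2)).le)
      linarith
    rw [MeasureTheory.integral_const_mul,
      MeasureTheory.integral_sub_right_eq_self (fun t : ℝ => Real.exp (-a * t ^ 2)) z.re] at h1
    exact h1
  · -- the approximation
    have hg0 : ∀ t : ℝ, gk a 0 t = ((Real.exp (-a * t ^ 2) : ℝ) : ℂ) := by
      intro t
      unfold gk
      rw [Complex.ofReal_exp]
      congr 1
      push_cast
      ring
    have hI1 : MeasureTheory.Integrable fun t : ℝ => gk a 0 t • U t ξ := gk_integrable hc ha ξ 0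
    have hI2 : MeasureTheory.Integrable fun t : ℝ => gk a 0 t • ξ := by
      have h1 := ((integrable_exp_neg_mul_sq ha).ofReal (𝕜 := ℂ)).smul_const ξ
      refine h1.congr (Filter.Eventually.of_forall fun t => ?_)
      simp only [hg0]
      rfl
    have hxi : (c : ℂ) • ∫ t : ℝ, gk a 0 t • ξ = ξ := by
      rw [integral_smul_const, smul_smul]
      have h1 : ∫ t : ℝ, gk a 0 t = ((∫ t : ℝ, Real.exp (-a * t ^ 2) : ℝ) : ℂ) := by
        simp only [hg0]
        exact integral_ofReal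
      rw [h1, ← Complex.ofReal_mul, hcint, Complex.ofReal_one, one_smul]
    have hdiff : (c : ℂ) • (∫ t : ℝ, gk a 0 t • U t ξ) - ξ =
        (c : ℂ) • ∫ t : ℝ, gk a 0 t • (U t ξ - ξ) := by
      have h1 : (c : ℂ) • (∫ t : ℝ, gk a 0 t • U t ξ) - ξ =
          (c : ℂ) • (∫ t : ℝ, gk a 0 t • U t ξ) - (c : ℂ) • ∫ t : ℝ, gk a 0 t • ξ := by
        rw [hxi]
      rw [h1, ← smul_sub, ← MeasureTheory.integral_sub hI1 hI2]
      simp only [smul_sub]
    rw [hdiff, norm_smul, Complex.norm_real, Real.norm_of_nonneg hc0]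
    have hb : ‖∫ t : ℝ, gk a 0 t • (U t ξ - ξ)‖ ≤
        ∫ t : ℝ, (δ / 2 * Real.exp (-a * t ^ 2) + 2 * ‖ξ‖ * Real.exp (-(a / 2) * r ^ 2) *
          Real.exp (-(a / 2) * t ^ 2)) := by
      refine MeasureTheory.norm_integral_le_of_norm_le
        (((integrable_exp_neg_mul_sq ha).const_mul _).add
          ((integrable_exp_neg_mul_sq (by positivity : 0 < a / 2)).const_mul _))
        (Filter.Eventually.of_forall fun t => ?_)
      rw [norm_smul, hg0, Complex.norm_real, Real.norm_of_nonneg (Real.exp_pos _).le]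
      have hp1 : (0 : ℝ) ≤ δ / 2 * Real.exp (-a * t ^ 2) := by positivity
      have hp2 : (0 : ℝ) ≤ 2 * ‖ξ‖ * Real.exp (-(a / 2) * r ^ 2) *
          Real.exp (-(a / 2) * t ^ 2) := by positivity
      rcases lt_or_ge |t| r with ht | ht
      · have h1 := mul_le_mul_of_nonneg_left (hr t ht).le (Real.exp_pos (-a * t ^ 2)).le
        linarith
      · have h1 : ‖U t ξ - ξ‖ ≤ 2 * ‖ξ‖ := by
          have := norm_sub_le (U t ξ) ξ
          rw [LinearIsometryEquiv.norm_map] at this
          linarith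
        have h2 : Real.exp (-a * t ^ 2) ≤ Real.exp (-(a / 2) * r ^ 2) *
            Real.exp (-(a / 2) * t ^ 2) := by
          rw [← Real.exp_add]
          refine Real.exp_le_exp.2 ?_
          have h3 : r ^ 2 ≤ t ^ 2 := by
            rw [← sq_abs t]
            exact pow_le_pow_left₀ hr0.le ht 2
          nlinarith
        have h3 := mul_le_mul h2 h1 (norm_nonneg _) (by positivity)
        linarith
    rw [MeasureTheory.integral_add ((integrable_exp_neg_mul_sq ha).const_mul _)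
      ((integrable_exp_neg_mul_sq (by positivity : 0 < a / 2)).const_mul _),
      MeasureTheory.integral_const_mul, MeasureTheory.integral_const_mul] at hb
    have h9 := mul_le_mul_of_nonneg_left hb hc0
    have h10 : c * (δ / 2 * (∫ t : ℝ, Real.exp (-a * t ^ 2)) +
        2 * ‖ξ‖ * Real.exp (-(a / 2) * r ^ 2) * ∫ t : ℝ, Real.exp (-(a / 2) * t ^ 2)) =
        δ / 2 * (c * ∫ t : ℝ, Real.exp (-a * t ^ 2)) +
        2 * ‖ξ‖ * Real.exp (-(a / 2) * r ^ 2) * (c * ∫ t : ℝ, Real.exp (-(a / 2) * t ^ 2)) := by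
      ring
    rw [h10, hcint, hcint2] at h9
    linarith

end LCQG
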