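import Mathlib
import Pool.Agent.Lib.MP_ea3264_an.V.Nice

/-!
# Analytic vectors: further properties

See the comments in `V/Nice.lean`.

`Nice.diff_sesq`: for a bounded sesquilinear map `B : H →L⋆[ℂ] H →L[ℂ] E` the function
`z ↦ B (e' (conj z)) (e z)` is entire: `z ↦ B (e' (conj z)) ∈ (H →L[ℂ] E)` is the composition
antilinear ∘ entire ∘ conj; compute the derivative directly (`HasDerivAt` of `fun z => L (e' (conj
z))` for a continuous antilinear `L` is `L (e'' (conj z))`; see `HasDerivAt.star_conj`,
`hasDerivAt_conj_conj_iff`-like lemmas, or use that a real-differentiable function with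
complex-linear derivative is complex differentiable), and then `HasDerivAt.clm_apply`.
-/

set_option autoImplicit false
set_option linter.unusedSectionVars false

open scoped TensorProduct InnerProductSpace ComplexConjugate Topology
open ContinuousLinearMap Filter

noncomputable section

namespace LCQG

variable {H : Type*} [NormedAddCommGroup H] [InnerProductSpace ℂ H] [CompleteSpace H]
variable {U : ℝ → H ≃ₗᵢ[ℂ] H}

theorem Nice.zero {ξ : H} {e : ℂ → H} (hU : ∀ s t x, U (s + t) x = U s (U t x))
    (h : Nice U ξ e) : e 0 = ξ := by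
  have := h.real 0
  rw [Complex.ofReal_zero] at this
  rw [this, U_zero hU]

private theorem entire_ext {E : Type*} [NormedAddCommGroup E] [NormedSpace ℂ E] [CompleteSpace E]
    {f g : ℂ → E} (hf : Differentiable ℂ f) (hg : Differentiable ℂ g)
    (h : ∀ t : ℝ, f t = g t) : f = g := by
  refine AnalyticOnNhd.eq_of_frequently_eq (z₀ := 0)
    (hf.differentiableOn.analyticOnNhd isOpen_univ)
    (hg.differentiableOn.analyticOnNhd isOpen_univ) ?_
  have h1 : Tendsto (fun n : ℕ => (((1 : ℝ) / ((n : ℝ) + 1) : ℝ) : ℂ)) atTop (𝓝[≠] 0) := by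
    refine tendsto_nhdsWithin_of_tendsto_nhds_of_eventually_within _ ?_ ?_
    · have h2 : Tendsto (fun n : ℕ => (1 : ℝ) / ((n : ℝ) + 1)) atTop (𝓝 0) :=
        tendsto_one_div_add_atTop_nhds_zero_nat
      have h3 := (Complex.continuous_ofReal.tendsto 0).comp h2
      rw [Complex.ofReal_zero] at h3
      exact h3
    · refine Filter.Eventually.of_forall fun n => ?_
      simp only [Set.mem_compl_iff, Set.mem_singleton_iff]
      rw [Complex.ofReal_eq_zero]
      positivity
  exact h1.frequently (Filter.Frequently.of_forall fun n => h _)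

/-- `U t (e w) = e (t + w)`. -/
theorem Nice.U_apply {ξ : H} {e : ℂ → H} (hU : ∀ s t x, U (s + t) x = U s (U t x))
    (h : Nice U ξ e) (t : ℝ) (w : ℂ) : U t (e w) = e (t + w) := by
  have h1 : Differentiable ℂ fun w => U t (e w) :=
    ((U t).toContinuousLinearEquiv : H →L[ℂ] H).differentiable.comp h.diff
  have h2 : Differentiable ℂ fun w : ℂ => e (t + w) :=
    h.diff.comp (differentiable_id.const_add _)
  refine congrFun (entire_ext h1 h2 fun s => ?_) w
  show U t (e s) = e (t + s)
  rw [h.real s, ← hU, ← h.real, Complex.ofReal_add]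

theorem Nice.shift {ξ : H} {e : ℂ → H} (hU : ∀ s t x, U (s + t) x = U s (U t x))
    (h : Nice U ξ e) (w : ℂ) : Nice U (e w) (fun z => e (z + w)) := by
  refine ⟨h.diff.comp (differentiable_id.add_const _), fun t => (h.U_apply hU t w).symm, ?_⟩
  intro r
  obtain ⟨C, hC⟩ := h.bdd (r + |w.im|)
  refine ⟨C, fun z hz => hC _ ?_⟩
  rw [Complex.add_im]
  exact (abs_add_le _ _).trans (by linarith)

theorem Nice.diff_sesq {E : Type*} [NormedAddCommGroup E] [NormedSpace ℂ E]
    (B : H →L⋆[ℂ] H →L[ℂ] E) {ξ η : H} {e e' : ℂ → H} (h : Nice U ξ e) (h' : Nice U η e') :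
    Differentiable ℂ fun z => B (e' (conj z)) (e z) := by
  intro z
  have h1 : HasDerivAt (fun z => B (e' (conj z))) (B (deriv e' (conj z))) z := by
    rw [hasDerivAt_iff_tendsto_slope]
    have h2 := hasDerivAt_iff_tendsto_slope.1 (h'.diff (conj z)).hasDerivAt
    have h3 : Tendsto (fun y : ℂ => conj y) (𝓝[≠] z) (𝓝[≠] (conj z)) := by
      refine tendsto_nhdsWithin_of_tendsto_nhds_of_eventually_within _ ?_ ?_
      · exact (Complex.continuous_conj.tendsto z).mono_left nhdsWithin_le_nhds
      · filter_upwards [self_mem_nhdsWithin] with y hy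
        simp only [Set.mem_compl_iff, Set.mem_singleton_iff] at hy ⊢
        exact fun h => hy ((starRingEnd ℂ).injective h)
    have h4 := (B.continuous.tendsto (deriv e' (conj z))).comp (h2.comp h3)
    refine h4.congr fun y => ?_
    show B (slope e' (conj z) (conj y)) = slope (fun z => B (e' (conj z))) z y
    rw [slope_def_module, slope_def_module, B.map_smulₛₗ, map_sub, map_inv₀, map_sub,
      Complex.conj_conj, Complex.conj_conj]
  exact (h1.clm_apply (h.diff z).hasDerivAt).differentiableAt

theorem Nice.inner_const (hU : ∀ s t x, U (s + t) x = U s (U t x)) {ξ η : H}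
    {e e' : ℂ → H} (h : Nice U ξ e) (h' : Nice U η e') (z : ℂ) :
    ⟪e' (conj z), e z⟫_ℂ = ⟪η, ξ⟫_ℂ := by
  have h1 : Differentiable ℂ fun z => ⟪e' (conj z), e z⟫_ℂ := h.diff_sesq (innerSL ℂ) h'
  have h2 : Differentiable ℂ fun _ : ℂ => ⟪η, ξ⟫_ℂ := differentiable_const _
  refine congrFun (entire_ext h1 h2 fun t => ?_) z
  show ⟪e' (conj (t : ℂ)), e t⟫_ℂ = ⟪η, ξ⟫_ℂ
  rw [Complex.conj_ofReal, h.real, h'.real, LinearIsometryEquiv.inner_map_map]

end LCQG
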