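import Mathlib
import Pool.Agent.Lib.MP_ea3264_an.V.NiceApi
import Pool.Agent.Lib.MP_ea3264_an.V.ExtUnique

/-!
# Extensions for analytic vectors, and the involution of `C₀(𝔾)`

`tau_lam`: `tau U t (lam W ξ η) = lam W (U t ξ) (U t η)`, from `D.W_U`:
`⟪u, U t (lam W ξ η (U (-t) y))⟫ = ⟪tm η (U (-t) u), W (tm ξ (U (-t) y))⟫ =
⟪mapT (U t) (U t) (tm η (U (-t) u)), mapT (U t) (U t) (W (tm ξ (U (-t) y)))⟫ =
⟪tm (U t η) u, W (tm (U t ξ) y)⟫`.

`isExt_lam_nice`: `F z = lam W (e z) (e' (conj z)) = lamS W (e' (conj z)) (e z)` is entire by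
`Nice.diff_sesq`, bounded on strips (`norm_lam_le`), and `F t = lam W (U t ξ) (U t η)
= tau U t (lam W ξ η)` for real `t`; `F (i s) = lam W (e (i s)) (e' (-i s))`.

`rho_adj_nice`: Let `F` be the function of `D.scaling ξ η`: `F t = tau U t (lam W ξ η)`,
`F (i/2) = conjBy J (lam W η ξ)`. For nice `u` (with `e'`) and `y` (with `e`):
`⟪u, F t y⟫ = ⟪U (-t) u, lam W ξ η (U (-t) y)⟫ = ⟪e' (-t), lam W ξ η (e (-t))⟫`. So the two
functions `z ↦ ⟪u, F z y⟫` and `z ↦ ⟪e' (-(conj z)), lam W ξ η (e (-z))⟫` (entire, bounded on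
the strip; `Nice.diff_sesq` with `z ↦ -z`) agree on `ℝ`, hence at `z = i/2` (`strip_unique`):
`⟪u, J (lam W η ξ (J y))⟫ = ⟪e' (i/2), lam W ξ η (e (-i/2))⟫`, that is (`inner_conjBy`,
`inner_lam`, `inner_rho`) `⟪rho W (J y) (J u) η, ξ⟫ = ⟪η, rho W (e (-i/2)) (e' (i/2)) ξ⟫` for
all `ξ`, `η`; so `rho W (e (-i/2)) (e' (i/2)) = adjoint (rho W (J y) (J u))`. Applied to the nice
vectors `e (i/2)`, `e' (-i/2)` (`Nice.shift`) in place of `y`, `u`, and taking adjoints:
`adjoint (rho W y u) = rho W (J (e (i/2))) (J (e' (-i/2)))`.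

`C0_adjoint`: by `rho_adj_nice`, `nice_dense`, `continuous_rho`, `adjoint (rho W y u) ∈ C0 W` for
all `y`, `u`; then `Cs_induction`.
-/

set_option autoImplicit false
set_option linter.unusedSectionVars false

open scoped TensorProduct InnerProductSpace ComplexConjugate Topology
open ContinuousLinearMap Filter

noncomputable section

namespace LCQG

variable {H : Type*} [NormedAddCommGroup H] [InnerProductSpace ℂ H] [CompleteSpace H]

theorem tau_lam (D : QData H) (t : ℝ) (ξ η : H) :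
    tau D.U t (lam D.W ξ η) = lam D.W (D.U t ξ) (D.U t η) := by
  refine op_ext_inner fun u y => ?_
  rw [tau_apply, inner_U_right D.U_add, inner_lam, inner_lam]
  have h1 : D.W (tm (D.U t ξ) y) = mapT (D.U t) (D.U t) (D.W (tm ξ (D.U (-t) y))) := by
    rw [← D.W_U, U_apply_neg D.U_add]
  have h2 : (tm (D.U t η) u : HT H H) = mapT (D.U t) (D.U t) (tm η (D.U (-t) u)) := by
    rw [mapT_tm, U_apply_neg D.U_add]
  rw [h1, h2, LinearIsometryEquiv.inner_map_map]

theorem isExt_lam_nice (D : QData H) {ξ η : H} {e e' : ℂ → H} (h : Nice D.U ξ e)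
    (h' : Nice D.U η e') (s : ℝ) :
    IsExt D.U s (lam D.W ξ η) (lam D.W (e (s * Complex.I)) (e' (-(s * Complex.I)))) := by
  have hd : Differentiable ℂ fun z => lamS D.W (e' (conj z)) (e z) :=
    Nice.diff_sesq (lamS D.W) h h'
  refine ⟨fun z => lamS D.W (e' (conj z)) (e z), hd.continuous.continuousOn,
    hd.differentiableOn, ?_, ?_, ?_⟩
  · obtain ⟨C, hC⟩ := h.bdd |s|
    obtain ⟨C', hC'⟩ := h'.bdd |s|
    refine ⟨C * C', fun z hz => ?_⟩
    have hz1 : |z.im| ≤ |s| := by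
      rw [abs_of_nonneg hz.1]
      exact hz.2.trans (le_abs_self s)
    have hz2 : |(conj z).im| ≤ |s| := by
      rw [Complex.conj_im, abs_neg]
      exact hz1
    have b1 := hC z hz1
    have b2 := hC' (conj z) hz2
    calc ‖lamS D.W (e' (conj z)) (e z)‖ ≤ ‖e z‖ * ‖e' (conj z)‖ := by
          rw [lamS_apply]
          exact norm_lam_le _ _ _
      _ ≤ C * C' := by
          have := norm_nonneg (e z)
          have := norm_nonneg (e' (conj z))
          gcongr
          linarith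
  · intro t
    change lamS D.W (e' (conj (t : ℂ))) (e t) = _
    rw [Complex.conj_ofReal, lamS_apply, h.real, h'.real, tau_lam]
  · change lamS D.W (e' (conj ((s : ℂ) * Complex.I))) (e (s * Complex.I)) = _
    have h1 : conj ((s : ℂ) * Complex.I) = -(s * Complex.I) := by
      rw [map_mul, Complex.conj_ofReal, Complex.conj_I, mul_neg]
    rw [h1, lamS_apply]

private theorem extnice_key (D : QData H) (ξ η : H) {y u : H} {e e' : ℂ → H}
    (h : Nice D.U y e) (h' : Nice D.U u e') :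
    ⟪u, conjBy D.J (lam D.W η ξ) y⟫_ℂ =
      ⟪e' (Complex.I / 2), lam D.W ξ η (e (-(Complex.I / 2)))⟫_ℂ := by
  obtain ⟨F, hFc, hFd, ⟨C, hC⟩, hFt, hFb⟩ := D.scaling ξ η
  -- the second function
  let B : H →L⋆[ℂ] H →L[ℂ] ℂ := LinearMap.mkContinuous₂
    (LinearMap.mk₂'ₛₗ (starRingEnd ℂ) (RingHom.id ℂ) (fun v w => ⟪v, lam D.W ξ η w⟫_ℂ)
      (fun v v' w => by simp) (fun c v w => by simp [mul_comm])
      (fun v w w' => by simp) (fun c v w => by simp))
    ‖lam D.W ξ η‖
    (fun v w => by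
      change ‖⟪v, lam D.W ξ η w⟫_ℂ‖ ≤ ‖lam D.W ξ η‖ * ‖v‖ * ‖w‖
      calc ‖⟪v, lam D.W ξ η w⟫_ℂ‖ ≤ ‖v‖ * ‖lam D.W ξ η w‖ := norm_inner_le_norm _ _
        _ ≤ ‖v‖ * (‖lam D.W ξ η‖ * ‖w‖) := by
            gcongr
            exact ContinuousLinearMap.le_opNorm _ _
        _ = ‖lam D.W ξ η‖ * ‖v‖ * ‖w‖ := by ring)
  have hB : ∀ v w, B v w = ⟪v, lam D.W ξ η w⟫_ℂ := fun v w => rfl
  have hd2 : Differentiable ℂ fun z => B (e' (conj z)) (e z) := Nice.diff_sesq B h h'
  have hd3 : Differentiable ℂ fun z => B (e' (conj (-z))) (e (-z)) := by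
    have := hd2.comp (differentiable_id.neg : Differentiable ℂ fun z : ℂ => -z)
    exact this
  let L : (H →L[ℂ] H) →L[ℂ] ℂ := (innerSL ℂ u) ∘L (ContinuousLinearMap.apply ℂ H y)
  have hL : ∀ a : H →L[ℂ] H, L a = ⟪u, a y⟫_ℂ := fun a => rfl
  have hzero : ∀ z ∈ cstrip (1 / 2), L (F z) - B (e' (conj (-z))) (e (-z)) = 0 := by
    refine strip_unique (by norm_num)
      (F := fun z => L (F z) - B (e' (conj (-z))) (e (-z))) ?_ ?_ ?_ ?_
    · exact (L.continuous.comp_continuousOn hFc).sub hd3.continuous.continuousOn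
    · exact (L.differentiable.comp_differentiableOn hFd).sub hd3.differentiableOn
    · obtain ⟨C1, hC1⟩ := h.bdd (1 / 2)
      obtain ⟨C2, hC2⟩ := h'.bdd (1 / 2)
      refine ⟨‖L‖ * C + ‖lam D.W ξ η‖ * C2 * C1, fun z hz => ?_⟩
      have hz1 : |(-z).im| ≤ 1 / 2 := by
        rw [Complex.neg_im, abs_neg, abs_of_nonneg hz.1]
        exact hz.2
      have hz2 : |(conj (-z)).im| ≤ 1 / 2 := by
        rw [Complex.conj_im, abs_neg]
        exact hz1
      have b1 := hC1 _ hz1
      have b2 := hC2 _ hz2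
      have b3 := hC z hz
      have n1 := norm_nonneg (e (-z))
      have n2 := norm_nonneg (e' (conj (-z)))
      refine (norm_sub_le _ _).trans (add_le_add ?_ ?_)
      · exact (L.le_opNorm _).trans (by gcongr)
      · rw [hB]
        calc ‖⟪e' (conj (-z)), lam D.W ξ η (e (-z))⟫_ℂ‖
            ≤ ‖e' (conj (-z))‖ * ‖lam D.W ξ η (e (-z))‖ := norm_inner_le_norm _ _
          _ ≤ ‖e' (conj (-z))‖ * (‖lam D.W ξ η‖ * ‖e (-z)‖) := by
              gcongr
              exact ContinuousLinearMap.le_opNorm _ _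
          _ ≤ C2 * (‖lam D.W ξ η‖ * C1) := by
              gcongr
              exact n2.trans b2
          _ = ‖lam D.W ξ η‖ * C2 * C1 := by ring
    · intro t
      have e1 : conj (-(t : ℂ)) = ((-t : ℝ) : ℂ) := by
        rw [map_neg, Complex.conj_ofReal, Complex.ofReal_neg]
      have e2 : -(t : ℂ) = ((-t : ℝ) : ℂ) := by rw [Complex.ofReal_neg]
      change L (F t) - B (e' (conj (-(t : ℂ)))) (e (-(t : ℂ))) = 0
      rw [e1, e2, hL, hB, hFt, h.real, h'.real, tau_apply, inner_U_right D.U_add, sub_self]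
  have hmem : (((1 / 2 : ℝ) : ℂ) * Complex.I) ∈ cstrip (1 / 2) := by
    constructor
    · simp
    · simp
  have hz := hzero _ hmem
  have e1 : conj (-(((1 / 2 : ℝ) : ℂ) * Complex.I)) = Complex.I / 2 := by
    rw [map_neg, map_mul, Complex.conj_ofReal, Complex.conj_I]
    push_cast
    ring
  have e2 : -(((1 / 2 : ℝ) : ℂ) * Complex.I) = -(Complex.I / 2) := by
    push_cast
    ring
  rw [e1, e2, hFb, hL, hB, sub_eq_zero] at hz
  exact hz

theorem rho_adj_nice (D : QData H) {y u : H} {e e' : ℂ → H} (h : Nice D.U y e)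
    (h' : Nice D.U u e') :
    adjoint (rho D.W y u) = rho D.W (D.J (e (Complex.I / 2))) (D.J (e' (-(Complex.I / 2)))) := by
  have key : ∀ {y u : H} {e e' : ℂ → H}, Nice D.U y e → Nice D.U u e' →
      adjoint (rho D.W (e (-(Complex.I / 2))) (e' (Complex.I / 2))) =
        rho D.W (D.J y) (D.J u) := by
    intro y u e e' h h'
    refine op_ext_inner fun ξ η => ?_
    have h1 := extnice_key D ξ η h h'
    rw [inner_conjBy D.J D.J_J, inner_lam, ← inner_rho, ← inner_conj_symm, inner_lam,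
      ← inner_rho] at h1
    rw [adjoint_inner_right, ← inner_conj_symm, ← h1, RCLike.conj_conj]
  have h1 := key (h.shift D.U_add (Complex.I / 2)) (h'.shift D.U_add (-(Complex.I / 2)))
  have e1 : -(Complex.I / 2) + Complex.I / 2 = 0 := by ring
  have e2 : Complex.I / 2 + -(Complex.I / 2) = 0 := by ring
  simp only [e1, e2] at h1
  rw [h.zero D.U_add, h'.zero D.U_add] at h1
  exact h1

theorem C0_adjoint (D : QData H) {a : H →L[ℂ] H} (ha : a ∈ C0 D.W) :
    adjoint a ∈ C0 D.W := by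
  have hcl : IsClosed ((C0 D.W : Submodule ℂ (H →L[ℂ] H)) : Set (H →L[ℂ] H)) :=
    Submodule.isClosed_topologicalClosure _
  have hadj : Continuous (adjoint : (H →L[ℂ] H) → (H →L[ℂ] H)) :=
    (adjoint : (H →L[ℂ] H) ≃ₗᵢ⋆[ℂ] (H →L[ℂ] H)).continuous
  have hc : IsClosed {p : H × H | adjoint (rho D.W p.1 p.2) ∈ C0 D.W} :=
    hcl.preimage (hadj.comp (continuous_rho D.W))
  have hrho : ∀ y u : H, adjoint (rho D.W y u) ∈ C0 D.W := by
    intro y u
    have hm : (y, u) ∈ closure {p : H × H | adjoint (rho D.W p.1 p.2) ∈ C0 D.W} := by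
      rw [Metric.mem_closure_iff]
      intro ε hε
      obtain ⟨y', e, he, hy⟩ := nice_dense D.U_add D.U_cont y (half_pos hε)
      obtain ⟨u', e', he', hu⟩ := nice_dense D.U_add D.U_cont u (half_pos hε)
      refine ⟨(y', u'), ?_, ?_⟩
      · change adjoint (rho D.W y' u') ∈ C0 D.W
        rw [rho_adj_nice D he he', ← rhoS_apply]
        exact mem_Cs _ _ _
      · rw [Prod.dist_eq, max_lt_iff]
        constructor
        · rw [dist_eq_norm, norm_sub_rev]
          exact lt_of_le_of_lt hy (half_lt_self hε)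
        · rw [dist_eq_norm, norm_sub_rev]
          exact lt_of_le_of_lt hu (half_lt_self hε)
    rw [hc.closure_eq] at hm
    exact hm
  have hgen : ∀ x : SubT (Cs (rhoS D.W)), adjoint (SubT.val _ x) ∈ C0 D.W := by
    intro x
    refine Cs_induction (rhoS D.W) (p := fun x => adjoint (SubT.val _ x) ∈ C0 D.W) x ?_ ?_ ?_
      ?_ ?_
    · exact hcl.preimage (hadj.comp (SubT.val _).continuous)
    · rw [map_zero, map_zero]
      exact Submodule.zero_mem _
    · intro x y hx hy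
      rw [map_add, map_add]
      exact Submodule.add_mem _ hx hy
    · intro c x hx
      rw [map_smul, LinearIsometryEquiv.map_smulₛₗ]
      exact Submodule.smul_mem _ _ hx
    · intro u y
      rw [val_toCs, rhoS_apply]
      exact hrho y u
  exact hgen (SubT.mk _ a ha)

end LCQG
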