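import Mathlib
import Pool.Agent.Lib.MP_ea3264_an.V.Ext
import Pool.Agent.Lib.MP_ea3264_an.V.ExtNice

/-!
# `τ̂_{i/4}(λ(φ))` for `φ ∈ L¹(𝔾)`

`ext_sum`: let `φ = ∑ k, vecF (ξ k) (η k)`, `φ' = ∑ k, vecF (η k) (ξ k)`. By `D.scaling` and
`IsExt.sum`, `IsExt U (1/2) (lamM W φ) (conjBy J (lamM W φ'))`. For `x ∈ C0 W`, `x* ∈ C0 W`
(`C0_adjoint`) and `φ' x = ∑ ⟪ξ k, x (η k)⟫ = conj (φ x*)`, so `‖φ'‖ ≤ ‖φ‖`; also
`‖lamM W φ‖ ≤ ‖φ‖` (`norm_lamM_le`). `IsExt.interp` gives `b` with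
`IsExt U (1/4) (lamM W φ) b`, `‖b‖ ≤ max ‖lamM W φ‖ ‖lamM W φ'‖ ≤ ‖φ‖`.

`ext_L1`: every `φ ∈ L1 W` is the limit of a sequence `φ_n` of such finite sums
(elements of the span are of this form: `c • vecF ξ η = vecF (c • ξ) η`). The corresponding
`b_n` satisfy `‖b_n - b_m‖ ≤ ‖φ_n - φ_m‖` (`ext_sum` for the difference and uniqueness), so they
converge; `IsExt.lim`.
-/

set_option autoImplicit false
set_option linter.unusedSectionVars false

open scoped TensorProduct InnerProductSpace ComplexConjugate Topology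
open ContinuousLinearMap Filter

noncomputable section

namespace LCQG

variable {H : Type*} [NormedAddCommGroup H] [InnerProductSpace ℂ H] [CompleteSpace H]

private theorem el_conj_sum (J : H ≃ₗᵢ⋆[ℂ] H) {ι : Type*} (T : Finset ι) (f : ι → H →L[ℂ] H) :
    ∑ k ∈ T, conjBy J (f k) = conjBy J (∑ k ∈ T, f k) := by
  classical
  induction T using Finset.induction_on with
  | empty =>
    rw [Finset.sum_empty, Finset.sum_empty]
    ext x
    simp [conjBy_apply]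
  | insert a T ha ih => rw [Finset.sum_insert ha, Finset.sum_insert ha, conjBy_add, ih]

private theorem el_lamM_sum (W : HT H H ≃ₗᵢ[ℂ] HT H H) {n : ℕ} (ξ η : Fin n → H) :
    lamM W (∑ k, vecF (C0 W) (ξ k) (η k)) = ∑ k, lam W (ξ k) (η k) := by
  have h : ∀ φ, lamM W φ = sliceL (rhoS W) (norm_rhoS_le W) φ := fun φ => rfl
  rw [h, map_sum]
  refine Finset.sum_congr rfl fun k _ => ?_
  rw [← h, lamM_vecF]

private theorem el_norm_flip (D : QData H) {n : ℕ} (ξ η : Fin n → H) :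
    ‖∑ k, vecF (C0 D.W) (η k) (ξ k)‖ ≤ ‖∑ k, vecF (C0 D.W) (ξ k) (η k)‖ := by
  refine DualT.opNorm_le_bound _ (norm_nonneg _) fun x => ?_
  obtain ⟨y, hy⟩ : ∃ y : SubT (C0 D.W), SubT.val (C0 D.W) y = adjoint (SubT.val (C0 D.W) x) :=
    ⟨SubT.mk (C0 D.W) _ (C0_adjoint D (SubT.val_mem _ x)), SubT.val_mk _ _ _⟩
  have h1 : (∑ k, vecF (C0 D.W) (η k) (ξ k)) x =
      conj ((∑ k, vecF (C0 D.W) (ξ k) (η k)) y) := by
    rw [DualT.sum_apply, DualT.sum_apply, map_sum]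
    refine Finset.sum_congr rfl fun k _ => ?_
    rw [vecF_apply, vecF_apply, hy, ContinuousLinearMap.adjoint_inner_right, inner_conj_symm]
  have h2 : ‖y‖ = ‖x‖ := by
    rw [← SubT.norm_val, hy, LinearIsometryEquiv.norm_map, SubT.norm_val]
  rw [h1, RCLike.norm_conj, ← h2]
  exact DualT.le_opNorm _ y

theorem ext_sum (D : QData H) {n : ℕ} (ξ η : Fin n → H) :
    ∃ b, IsExt D.U (1 / 4) (lamM D.W (∑ k, vecF (C0 D.W) (ξ k) (η k))) b ∧
      ‖b‖ ≤ ‖∑ k, vecF (C0 D.W) (ξ k) (η k)‖ := by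
  have h1 : IsExt D.U (1 / 2) (∑ k, lam D.W (ξ k) (η k))
      (∑ k, conjBy D.J (lam D.W (η k) (ξ k))) :=
    IsExt.sum Finset.univ _ _ fun k _ => D.scaling (ξ k) (η k)
  rw [← el_lamM_sum, el_conj_sum, ← el_lamM_sum] at h1
  obtain ⟨b, hb, hb'⟩ := h1.interp D.U_add (r := 1 / 4) (by norm_num) (by norm_num)
  refine ⟨b, hb, hb'.trans (max_le (norm_lamM_le D.W _) ?_)⟩
  exact (norm_conjBy_le D.J _).trans ((norm_lamM_le D.W _).trans (el_norm_flip D ξ η))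

private theorem el_span (D : QData H) {φ : DualT (C0 D.W)}
    (hφ : φ ∈ Submodule.span ℂ (Set.range fun p : H × H => vecF (C0 D.W) p.1 p.2)) :
    ∃ b, IsExt D.U (1 / 4) (lamM D.W φ) b ∧ ‖b‖ ≤ ‖φ‖ := by
  obtain ⟨n, f, g, hg⟩ := Submodule.mem_span_set'.1 hφ
  choose p hp using fun i => (g i).2
  have h1 : φ = ∑ k, vecF (C0 D.W) (f k • (p k).1) (p k).2 := by
    rw [← hg]
    refine Finset.sum_congr rfl fun k _ => ?_
    rw [vecF_smul_left, ← hp k]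
  rw [h1]
  exact ext_sum D _ _

theorem ext_L1 (D : QData H) {φ : DualT (C0 D.W)} (hφ : φ ∈ L1 D.W) :
    IsExt D.U (1 / 4) (lamM D.W φ) (tilde D.U (lamM D.W φ)) ∧
      ‖tilde D.U (lamM D.W φ)‖ ≤ ‖φ‖ := by
  have hcl : φ ∈ closure ((Submodule.span ℂ (Set.range fun p : H × H =>
      vecF (C0 D.W) p.1 p.2) : Submodule ℂ (DualT (C0 D.W))) : Set (DualT (C0 D.W))) := by
    unfold L1 at hφ
    rw [← SetLike.mem_coe, Submodule.topologicalClosure_coe] at hφ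
    exact hφ
  obtain ⟨f, hf, hlim⟩ := mem_closure_iff_seq_limit.1 hcl
  choose b hb hb' using fun n => el_span D (hf n)
  have hlam : ∀ φ, lamM D.W φ = sliceL (rhoS D.W) (norm_rhoS_le D.W) φ := fun φ => rfl
  have key : ∀ m n, ‖b m - b n‖ ≤ ‖f m - f n‖ := by
    intro m n
    obtain ⟨c, hc, hc'⟩ := el_span D (Submodule.sub_mem _ (hf m) (hf n))
    have h1 : IsExt D.U (1 / 4) (lamM D.W (f m - f n)) (b m - b n) := by
      have h2 := (hb m).add ((hb n).smul (-1))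
      rw [hlam, map_sub, ← hlam, ← hlam]
      rw [neg_one_smul, neg_one_smul, ← sub_eq_add_neg, ← sub_eq_add_neg] at h2
      exact h2
    rw [IsExt.unique (by norm_num) h1 hc]
    exact hc'
  have hcau : CauchySeq b := by
    refine Metric.cauchySeq_iff.2 fun ε hε => ?_
    obtain ⟨N, hN⟩ := Metric.cauchySeq_iff.1 hlim.cauchySeq ε hε
    refine ⟨N, fun m hm n hn => lt_of_le_of_lt ?_ (hN m hm n hn)⟩
    rw [dist_eq_norm, dist_eq_norm]
    exact key m n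
  obtain ⟨b₀, hb₀⟩ := cauchySeq_tendsto_of_complete hcau
  have ha : Tendsto (fun n => lamM D.W (f n)) atTop (𝓝 (lamM D.W φ)) :=
    ((sliceL (rhoS D.W) (norm_rhoS_le D.W)).continuous.tendsto φ).comp hlim
  have hext : IsExt D.U (1 / 4) (lamM D.W φ) b₀ := IsExt.lim D.U_add (by norm_num) hb ha hb₀
  rw [tilde_eq hext]
  exact ⟨hext, le_of_tendsto_of_tendsto' hb₀.norm hlim.norm hb'⟩

end LCQG
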