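import Mathlib
import Pool.Agent.Lib.MP_ea3264_an.V.ExtL1
import Pool.Agent.Lib.MP_ea3264_an.Mul
import Pool.Agent.Lib.MP_ea3264_an.Char
import Pool.Agent.Lib.MP_ea3264_an.StBasic

/-!
# If `𝔾̂` is co-amenable then `‖λ̃(μ)‖ = 1` for normal states `μ`

Let `ψ : DualT (C0h W)`, `rhoM W ψ = 1`. It is a character (`C0h_mul`, `epsh_mul`), so
`‖ψ x‖ ≤ ‖x‖` (`char_norm_le`), and `ψ (lam W ξ η) = ⟪η, ξ⟫` (`inner_rhoM`).

Let `μ ∈ St W`, `δ > 0`. Choose (`St_approx`) `v` with `∑ ‖v j‖² = 1`,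
`‖μ - ∑ vecF (v j) (v j)‖ ≤ δ` and then (`nice_dense`, `continuous_vecF`) nice vectors `ξ j`
(with `e j`) close to `v j` such that `φ = ∑ vecF (ξ j) (ξ j)` satisfies `‖μ - φ‖ ≤ 2 δ` and
`|∑ ‖ξ j‖² - 1| ≤ δ`. By `isExt_lam_nice` and `IsExt.sum`,
`tilde U (lamM W φ) = ∑ lam W (e j (i/4)) (e j (-i/4))`, and `ψ` of this is
`∑ ⟪e j (-i/4), e j (i/4)⟫ = ∑ ⟪ξ j, ξ j⟫ = ∑ ‖ξ j‖²` (`Nice.inner_const`). So
`1 - δ ≤ ‖tilde U (lamM W φ)‖ ≤ ‖tilde U (lamM W μ)‖ + 2 δ`: `ext_L1` for `φ - μ ∈ L1 W` (and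
additivity of `tilde`, from `IsExt.add`, `IsExt.smul`, `tilde_eq`). Let `δ → 0`.
-/

set_option autoImplicit false
set_option linter.unusedSectionVars false

open scoped TensorProduct InnerProductSpace ComplexConjugate Topology
open ContinuousLinearMap Filter

noncomputable section

namespace LCQG

variable {H : Type*} [NormedAddCommGroup H] [InnerProductSpace ℂ H] [CompleteSpace H]

private theorem mass_lamM_sum (W : HT H H ≃ₗᵢ[ℂ] HT H H) {n : ℕ} (φ : Fin n → DualT (C0 W)) :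
    lamM W (∑ j, φ j) = ∑ j, lamM W (φ j) := by
  have h := map_sum (sliceL (rhoS W) (norm_rhoS_le W)) φ Finset.univ
  exact h

/-- approximation of a state by nice vectors -/
private theorem mass_approx (D : QData H) {μ : DualT (C0 D.W)} (hμ : μ ∈ St D.W) {δ : ℝ}
    (hδ : 0 < δ) : ∃ (n : ℕ) (ξ : Fin n → H) (e : Fin n → ℂ → H),
      (∀ j, Nice D.U (ξ j) (e j)) ∧ 1 - δ ≤ ∑ j, ‖ξ j‖ ^ 2 ∧
      ‖∑ j, vecF (C0 D.W) (ξ j) (ξ j) - μ‖ ≤ 2 * δ := by
  obtain ⟨n, v, hv, hv'⟩ := St_approx D.W hμ hδ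
  have hv1 : ∀ j, ‖v j‖ ≤ 1 := by
    intro j
    have h1 : ‖v j‖ ^ 2 ≤ 1 := by
      rw [← hv]
      exact Finset.single_le_sum (f := fun j => ‖v j‖ ^ 2) (fun i _ => sq_nonneg _)
        (Finset.mem_univ j)
    nlinarith [norm_nonneg (v j)]
  set κ : ℝ := min 1 (δ / (3 * n + 1)) with hκ
  have hκ0 : 0 < κ := by positivity
  have hκ1 : κ ≤ 1 := min_le_left _ _
  have hκ2 : 3 * n * κ ≤ δ := by
    have h1 : κ ≤ δ / (3 * n + 1) := min_le_right _ _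
    rw [le_div_iff₀ (by positivity)] at h1
    nlinarith
  choose ξ e hξ hξ' using fun j => nice_dense D.U_add D.U_cont (v j) hκ0
  have hn : ∀ j, ‖ξ j‖ + ‖v j‖ ≤ 3 := by
    intro j
    have h1 := norm_sub_norm_le (ξ j) (v j)
    have h2 := hξ' j
    have h3 := hv1 j
    linarith
  refine ⟨n, ξ, e, hξ, ?_, ?_⟩
  · have h1 : ∑ j, (‖v j‖ ^ 2 - 3 * κ) ≤ ∑ j, ‖ξ j‖ ^ 2 := by
      refine Finset.sum_le_sum fun j _ => ?_
      have h2 := norm_sub_norm_le (v j) (ξ j)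
      rw [norm_sub_rev] at h2
      have h3 := hξ' j
      have h4 := hn j
      have h5 : ‖v j‖ - ‖ξ j‖ ≤ κ := h2.trans h3
      have h6 : 0 ≤ ‖ξ j‖ + ‖v j‖ := add_nonneg (norm_nonneg _) (norm_nonneg _)
      have h7 : (‖v j‖ - ‖ξ j‖) * (‖ξ j‖ + ‖v j‖) ≤ κ * (‖ξ j‖ + ‖v j‖) :=
        mul_le_mul_of_nonneg_right h5 h6
      have h8 : κ * (‖ξ j‖ + ‖v j‖) ≤ κ * 3 := mul_le_mul_of_nonneg_left h4 hκ0.le
      nlinarith
    rw [Finset.sum_sub_distrib, hv, Finset.sum_const, Finset.card_univ, Fintype.card_fin,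
      nsmul_eq_mul] at h1
    linarith
  · have h1 : ‖∑ j, vecF (C0 D.W) (ξ j) (ξ j) - ∑ j, vecF (C0 D.W) (v j) (v j)‖ ≤ δ := by
      rw [← Finset.sum_sub_distrib]
      refine (norm_sum_le _ _).trans ?_
      have h2 : ∀ j ∈ (Finset.univ : Finset (Fin n)),
          ‖vecF (C0 D.W) (ξ j) (ξ j) - vecF (C0 D.W) (v j) (v j)‖ ≤ 3 * κ := by
        intro j _
        have h3 : vecF (C0 D.W) (ξ j) (ξ j) - vecF (C0 D.W) (v j) (v j) =
            vecF (C0 D.W) (ξ j - v j) (ξ j) + vecF (C0 D.W) (v j) (ξ j - v j) := by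
          refine DualT.ext fun x => ?_
          simp
        rw [h3]
        refine (norm_add_le _ _).trans ?_
        have h4 := norm_vecF_le (C0 D.W) (ξ j - v j) (ξ j)
        have h5 := norm_vecF_le (C0 D.W) (v j) (ξ j - v j)
        have h6 := hξ' j
        have h7 := hn j
        have h8 : 0 ≤ ‖ξ j‖ + ‖v j‖ := add_nonneg (norm_nonneg _) (norm_nonneg _)
        calc _ ≤ ‖ξ j - v j‖ * ‖ξ j‖ + ‖v j‖ * ‖ξ j - v j‖ := add_le_add h4 h5
          _ = ‖ξ j - v j‖ * (‖ξ j‖ + ‖v j‖) := by ring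
          _ ≤ κ * 3 := mul_le_mul h6 h7 h8 hκ0.le
          _ = 3 * κ := by ring
      refine (Finset.sum_le_sum h2).trans ?_
      rw [Finset.sum_const, Finset.card_univ, Fintype.card_fin, nsmul_eq_mul]
      linarith
    have h2 : ∑ j, vecF (C0 D.W) (ξ j) (ξ j) - μ =
        (∑ j, vecF (C0 D.W) (ξ j) (ξ j) - ∑ j, vecF (C0 D.W) (v j) (v j)) -
          (μ - ∑ j, vecF (C0 D.W) (v j) (v j)) := by abel
    rw [h2]
    refine (norm_sub_le _ _).trans ?_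
    linarith

theorem one_le_norm_tilde (D : QData H) {ψ : DualT (C0h D.W)} (hψ : rhoM D.W ψ = 1)
    {μ : DualT (C0 D.W)} (hμ : μ ∈ St D.W) : 1 ≤ ‖tilde D.U (lamM D.W μ)‖ := by
  refine le_of_forall_pos_le_add fun ε hε => ?_
  have hδ : 0 < ε / 3 := by positivity
  obtain ⟨n, ξ, e, hn, h1, h2⟩ := mass_approx D hμ hδ
  set φ : DualT (C0 D.W) := ∑ j, vecF (C0 D.W) (ξ j) (ξ j) with hφ
  set c : ℂ := ((1 / 4 : ℝ) : ℂ) * Complex.I with hc
  -- the extension of `lamM φ`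
  set x : SubT (C0h D.W) := ∑ j, toCs (lamS D.W) (e j (-c)) (e j c) with hx
  have hxv : SubT.val (C0h D.W) x = ∑ j, lam D.W (e j c) (e j (-c)) := by
    rw [hx, map_sum]
    rfl
  have hE1 : IsExt D.U (1 / 4) (lamM D.W φ) (SubT.val (C0h D.W) x) := by
    rw [hxv, hφ, mass_lamM_sum]
    refine IsExt.sum _ _ _ fun j _ => ?_
    rw [lamM_vecF]
    exact isExt_lam_nice D (hn j) (hn j) (1 / 4)
  -- the value of the character
  have hψx : ψ x = ((∑ j, ‖ξ j‖ ^ 2 : ℝ) : ℂ) := by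
    rw [hx, map_sum, Complex.ofReal_sum]
    refine Finset.sum_congr rfl fun j _ => ?_
    rw [← inner_rhoM, hψ]
    have h3 := Nice.inner_const D.U_add (hn j) (hn j) c
    have h4 : conj c = -c := by
      rw [hc, map_mul, Complex.conj_ofReal, Complex.conj_I]
      ring
    rw [h4] at h3
    have h5 : (1 : H →L[ℂ] H) (e j c) = e j c := rfl
    rw [h5, h3, inner_self_eq_norm_sq_to_K]
    push_cast
    rfl
  have h3 : ‖ψ x‖ ≤ ‖x‖ := char_norm_le (C0h D.W)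
    (fun a ha b hb => C0h_mul D.pentagon ha hb) ψ
    (fun x y z hz => epsh_mul D.pentagon hψ x y z hz) x
  have h4 : 1 - ε / 3 ≤ ‖SubT.val (C0h D.W) x‖ := by
    rw [SubT.norm_val]
    refine le_trans ?_ h3
    rw [hψx, Complex.norm_real]
    exact h1.trans (le_abs_self _)
  -- the difference
  have hφL : φ ∈ L1 D.W := by
    rw [hφ]
    refine Submodule.sum_mem _ fun j _ => ?_
    exact Submodule.le_topologicalClosure _ (Submodule.subset_span ⟨(ξ j, ξ j), rfl⟩)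
  have hμL : μ ∈ L1 D.W := St_subset_L1 D.W hμ
  obtain ⟨e1, -⟩ := ext_L1 D hμL
  obtain ⟨e2, e3⟩ := ext_L1 D (Submodule.sub_mem _ hφL hμL)
  have e4 := e2.add e1
  have e5 : lamM D.W (φ - μ) + lamM D.W μ = lamM D.W φ := by
    have := slice_add (rhoS D.W) (φ - μ) μ
    rw [sub_add_cancel] at this
    exact this.symm
  rw [e5] at e4
  have e6 := IsExt.unique (by norm_num) hE1 e4
  rw [e6] at h4
  have e7 := norm_add_le (tilde D.U (lamM D.W (φ - μ))) (tilde D.U (lamM D.W μ))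
  have e8 := e3.trans h2
  linarith

end LCQG
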